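import Mathlib
import Pool.Agent.H9.QuasiHom.Defs
import Pool.Agent.H9.QuasiHom.Proof

/-!
# A contractible surface in `ℂ³` with isolated singularities that is not quasihomogeneous

The surface `X = {y² + z(z-1)x = 0} ⊂ ℂ³` deformation retracts onto the `z`-axis by
`(x, y, z) ↦ (s²x, s y, z)`, and its singular points are exactly `(0,0,0)` and `(0,0,1)`.
The singular locus of a quasihomogeneous polynomial (with positive weights) is stable under a
`ℂ*`-action whose only fixed point is the origin, so it cannot be a finite set with two elements.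
-/

namespace Pool.Agent.Results.MP_c4712b_ag.SurfaceNotQuasihomogeneous

open MvPolynomial Pool.Agent.H9.QuasiHom

theorem result : ∃ p : MvPolynomial (Fin 3) ℂ, Irreducible p ∧
    ContractibleSpace (Hypersurface p) ∧
    (∃ a, IsIsolatedSingularPoint p a) ∧
    (∀ a, IsSingularPoint p a → IsIsolatedSingularPoint p a) ∧
    ∀ α : MvPolynomial (Fin 3) ℂ ≃ₐ[ℂ] MvPolynomial (Fin 3) ℂ, ¬ IsQuasihomogeneous (α p) := by
  obtain ⟨h1, h2, ⟨a, ha⟩, h4, h5⟩ := main
  exact ⟨pp, h1, h2, ⟨a, h4 a ha⟩, h4, h5⟩

end Pool.Agent.Results.MP_c4712b_ag.SurfaceNotQuasihomogeneous
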